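import Pool.Agent.helper94.SCT.Spec
import Pool.Agent.helper85.BVP.HArith

/-!
# sct:BTI (helper47): primes in short intervals, upper bound
-/

set_option autoImplicit false

namespace Pool.Agent.SCT

open Finset ArithmeticFunction MeasureTheory
open Pool.Agent.Lib.BrunHooley

private theorem BTI_sqrt_log (N : ℕ) (hN : 1 ≤ N) : √(N : ℝ) * Real.log N ≤ 4 * N := by
  have hN0 : (0 : ℝ) < N := by exact_mod_cast hN
  have hN1 : (1 : ℝ) ≤ N := by exact_mod_cast hN
  set s := Real.sqrt N with hs_def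
  have hs0 : 0 < s := Real.sqrt_pos.mpr hN0
  have hs1 : 1 ≤ s := by
    rw [hs_def]
    exact Real.one_le_sqrt.2 hN1
  have hs2 : s ^ 2 = N := Real.sq_sqrt hN0.le
  set u := Real.sqrt s with hu_def
  have hu0 : 0 < u := Real.sqrt_pos.mpr hs0
  have hu1 : 1 ≤ u := by
    rw [hu_def]
    exact Real.one_le_sqrt.2 hs1
  have hu2 : u ^ 2 = s := Real.sq_sqrt hs0.le
  have hu4 : (N : ℝ) = u ^ 4 := by rw [← hs2, ← hu2]; ring
  have hlogu : Real.log N ≤ 4 * u := Pool.Agent.helper85.BVP.log_le_of_sq hu0 hu4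
  calc s * Real.log N ≤ s * (4 * u) := mul_le_mul_of_nonneg_left hlogu hs0.le
    _ = 4 * (u ^ 3 * 1) := by rw [← hu2]; ring
    _ ≤ 4 * (u ^ 3 * u) := by gcongr
    _ = 4 * N := by rw [hu4]; ring

theorem BTI : BTI_stmt := by
  obtain ⟨B, hB⟩ := interval_sieve 1
  refine ⟨8 * (B + 1) + 8, by positivity, ?_⟩
  intro y H hH
  have hH1 : 1 < H := by omega
  have hHr : (0 : ℝ) < H := by exact_mod_cast (by omega : 0 < H)
  have hlogH : 0 < Real.log H := Real.log_pos (by exact_mod_cast hH1)
  rw [le_div_iff₀ hlogH]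
  by_cases hbig : 4 ^ (B + 1) ≤ H
  · obtain ⟨r, hr1, hr2⟩ := Pool.Agent.helper85.BVP.pick_r B H hbig
    set z := Z r with hz
    have hz2 : 2 ≤ z := two_le_Z r
    have hz1 : (1 : ℝ) ≤ z := by exact_mod_cast (by omega : 1 ≤ z)
    have hs := (hB r y H (fun _ => {0}) (fun l hl c hc => by
      rw [mem_singleton] at hc
      rw [hc]
      exact hl.pos) (fun l => by simp) (fun l hl => by
        rw [card_singleton]
        exact hl.one_lt)).2
    rw [← hz] at hs
    have hprod : ∏ l ∈ Nat.primesLE z, (1 - ((#({0} : Finset ℕ) : ℕ) : ℝ) / l) ≤ 1 / Real.log (z + 1) := by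
      refine le_trans (le_of_eq ?_) (Pool.Agent.Lib.PrimeSums.prod_one_sub_le z (by omega))
      refine prod_congr rfl fun l _ => ?_
      rw [card_singleton, Nat.cast_one]
    have hcount : #((Ioc y (y + H)).filter Nat.Prime) ≤ z + #(sifted y H z (fun _ => {0})) := by
      have hsub : (Ioc y (y + H)).filter Nat.Prime ⊆ Icc 1 z ∪ sifted y H z (fun _ => {0}) := by
        intro p hp
        rw [mem_filter] at hp
        rw [mem_union, mem_Icc]
        rcases Nat.lt_or_ge z p with h | h
        · right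
          rw [sifted, mem_filter]
          refine ⟨hp.1, fun l hl hmem => ?_⟩
          obtain ⟨hlz, hlp⟩ := Nat.mem_primesLE.mp hl
          rw [mem_singleton] at hmem
          have h5 := (Nat.prime_dvd_prime_iff_eq hlp hp.2).1 (Nat.dvd_of_mod_eq_zero hmem)
          omega
        · left
          exact ⟨hp.2.pos, h⟩
      refine (card_le_card hsub).trans ((card_union_le _ _).trans ?_)
      rw [Nat.card_Icc]
      omega
    have hlz : Real.log H ≤ 4 * (B + 1) * Real.log (z + 1) := by
      have h3 : Real.log z ≤ Real.log (z + 1) := Real.log_le_log (by positivity) (by linarith)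
      have h4 : 4 * ((B : ℝ) + 1) * Real.log z ≤ 4 * (B + 1) * Real.log (z + 1) := by gcongr
      linarith
    have hl5 : 0 < Real.log ((z : ℝ) + 1) := Real.log_pos (by linarith)
    have hHz : (z : ℝ) ^ (2 * (B + 1)) ≤ H := by exact_mod_cast hr1
    have hzB : (z : ℝ) ^ B ≤ √H := by
      apply Real.le_sqrt_of_sq_le
      refine le_trans ?_ hHz
      rw [← pow_mul]
      exact pow_le_pow_right₀ hz1 (by omega)
    have hzz : (z : ℝ) ≤ √H := by
      apply Real.le_sqrt_of_sq_le
      refine le_trans ?_ hHz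
      exact pow_le_pow_right₀ hz1 (by omega)
    have hsl := BTI_sqrt_log H (by omega)
    have hcR : (#((Ioc y (y + H)).filter Nat.Prime) : ℝ) ≤ z + #(sifted y H z (fun _ => {0})) := by
      exact_mod_cast hcount
    have hmain : 2 * (H : ℝ) * (∏ l ∈ Nat.primesLE z, (1 - ((#({0} : Finset ℕ) : ℕ) : ℝ) / l)) * Real.log H ≤
        8 * (B + 1) * H := by
      have h6 : 2 * (H : ℝ) * (∏ l ∈ Nat.primesLE z, (1 - ((#({0} : Finset ℕ) : ℕ) : ℝ) / l)) * Real.log H ≤
          2 * (H : ℝ) * (1 / Real.log (z + 1)) * (4 * (B + 1) * Real.log (z + 1)) := by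
        refine mul_le_mul (mul_le_mul_of_nonneg_left hprod (by positivity)) hlz hlogH.le (by positivity)
      refine h6.trans (le_of_eq ?_)
      field_simp
      ring
    have hfin : (#((Ioc y (y + H)).filter Nat.Prime) : ℝ) * Real.log H ≤
        (√H + (2 * (H : ℝ) * (∏ l ∈ Nat.primesLE z, (1 - ((#({0} : Finset ℕ) : ℕ) : ℝ) / l)) + √H)) *
          Real.log H := by
      refine mul_le_mul_of_nonneg_right ?_ hlogH.le
      linarith
    refine hfin.trans ?_
    have e : (√H + (2 * (H : ℝ) * (∏ l ∈ Nat.primesLE z, (1 - ((#({0} : Finset ℕ) : ℕ) : ℝ) / l)) + √H)) *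
          Real.log H = 2 * (√H * Real.log H) +
          2 * (H : ℝ) * (∏ l ∈ Nat.primesLE z, (1 - ((#({0} : Finset ℕ) : ℕ) : ℝ) / l)) * Real.log H := by ring
    rw [e]
    linarith
  · have hbig' := not_le.1 hbig
    have h1 : #((Ioc y (y + H)).filter Nat.Prime) ≤ H := by
      refine (card_filter_le _ _).trans ?_
      rw [Nat.card_Ioc]
      omega
    have h1' : (#((Ioc y (y + H)).filter Nat.Prime) : ℝ) ≤ H := by exact_mod_cast h1
    have h2 : Real.log H ≤ 2 * (B + 1) := by
      have h3 : Real.log H ≤ Real.log ((4 : ℝ) ^ (B + 1)) :=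
        Real.log_le_log hHr (by exact_mod_cast hbig'.le)
      rw [Real.log_pow] at h3
      have h4 : Real.log 4 ≤ 2 := by
        have : (4 : ℝ) = 2 ^ 2 := by norm_num
        rw [this, Real.log_pow]
        have := Real.log_two_lt_d9
        push_cast
        linarith
      push_cast at h3
      nlinarith [(Nat.cast_nonneg B : (0 : ℝ) ≤ B)]
    calc (#((Ioc y (y + H)).filter Nat.Prime) : ℝ) * Real.log H ≤ H * (2 * (B + 1)) :=
          mul_le_mul h1' h2 hlogH.le hHr.le
      _ ≤ (8 * (B + 1) + 8) * H := by nlinarith [(Nat.cast_nonneg B : (0 : ℝ) ≤ B)]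

end Pool.Agent.SCT
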