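import Pool.Agent.helper94.SCT.Spec
import Pool.Agent.helper85.BVP.HArith

/-!
# sct:FFA (helper47): the function `ff` is submultiplicative, with a bounded third moment
-/

set_option autoImplicit false

namespace Pool.Agent.SCT

open Finset ArithmeticFunction MeasureTheory

private theorem FFA_one (l : ℕ) : (1 : ℝ) ≤ 1 + 1 / (l : ℝ) := by
  have : (0 : ℝ) ≤ 1 / (l : ℝ) := by positivity
  linarith

theorem FFA_one_le (n : ℕ) : 1 ≤ ff n := by
  unfold ff
  exact Finset.one_le_prod fun l _ => FFA_one l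

theorem FFA_mul_le (m n : ℕ) (hm : m ≠ 0) (hn : n ≠ 0) : ff (m * n) ≤ ff m * ff n := by
  unfold ff
  rw [Nat.primeFactors_mul hm hn, ← Finset.prod_union_inter]
  have h1 : 1 ≤ ∏ p ∈ m.primeFactors ∩ n.primeFactors, (1 + 1 / (p : ℝ)) :=
    Finset.one_le_prod fun l _ => FFA_one l
  have h2 : 0 ≤ ∏ p ∈ m.primeFactors ∪ n.primeFactors, (1 + 1 / (p : ℝ)) :=
    prod_nonneg fun p _ => zero_le_one.trans (FFA_one p)
  nlinarith

/-- `ff n ≤ n / φ(n)` -/
theorem FFA_le_h (n : ℕ) : ff n ≤ Pool.Agent.helper85.BVP.h n := by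
  unfold ff Pool.Agent.helper85.BVP.h
  refine prod_le_prod (fun l _ => zero_le_one.trans (FFA_one l)) fun l hl => ?_
  have hlp := Nat.prime_of_mem_primeFactors hl
  have h2 : (2 : ℝ) ≤ l := by exact_mod_cast hlp.two_le
  have h3 := Pool.Agent.helper85.BVP.one_sub_inv_pos hlp
  rw [le_inv_comm₀ (by positivity) h3]
  rw [le_inv_comm₀ h3 (by positivity), ← one_div, le_div_iff₀ h3]
  have : (0 : ℝ) ≤ (1 / (l : ℝ)) ^ 2 := sq_nonneg _
  nlinarith

theorem FFA : FFA_stmt := by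
  refine ⟨FFA_one_le, FFA_mul_le, Real.exp 30, Real.exp_pos _, ?_⟩
  intro H
  refine le_trans ?_ (Pool.Agent.helper85.BVP.sum_h4 H)
  have e : Icc 1 H = Ioc 0 H := by
    ext n
    simp only [mem_Icc, mem_Ioc]
    omega
  rw [e]
  refine sum_le_sum fun n _ => ?_
  have h1 := FFA_one_le n
  have h2 := FFA_le_h n
  have h3 := Pool.Agent.helper85.BVP.one_le_h n
  calc ff n ^ 3 ≤ Pool.Agent.helper85.BVP.h n ^ 3 := pow_le_pow_left₀ (by linarith) h2 3
    _ ≤ Pool.Agent.helper85.BVP.h n ^ 4 := pow_le_pow_right₀ h3 (by norm_num)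

end Pool.Agent.SCT
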