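import Pool.Agent.helper94.SCT.Spec
import Pool.Agent.helper85.BVP.PairSieve

/-!
# sct:TWS (helper47): prime pairs in short intervals, upper bound
-/

set_option autoImplicit false

namespace Pool.Agent.SCT

open Finset ArithmeticFunction MeasureTheory
open Pool.Agent.Lib.BrunHooley

private theorem TWS_one (l : ℕ) : (1 : ℝ) ≤ 1 + 1 / (l : ℝ) := by
  have : (0 : ℝ) ≤ 1 / (l : ℝ) := by positivity
  linarith

private theorem TWS_one_le (n : ℕ) : 1 ≤ ff n := by
  unfold ff
  exact Finset.one_le_prod fun l _ => TWS_one l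

/-- `n / φ(n) ≤ e² ff n` -/
private theorem TWS_h_le (n : ℕ) : Pool.Agent.helper85.BVP.h n ≤ Real.exp 2 * ff n := by
  have h1 : Pool.Agent.helper85.BVP.h n ≤
      ∏ l ∈ n.primeFactors, Real.exp (2 * (1 / (l : ℝ) ^ 2)) * (1 + 1 / (l : ℝ)) := by
    unfold Pool.Agent.helper85.BVP.h
    refine prod_le_prod (fun l hl => ?_) fun l hl => ?_
    · exact (inv_pos.2 (Pool.Agent.helper85.BVP.one_sub_inv_pos (Nat.prime_of_mem_primeFactors hl))).le
    · have hlp := Nat.prime_of_mem_primeFactors hl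
      have h2 : (2 : ℝ) ≤ l := by exact_mod_cast hlp.two_le
      have h3 := Pool.Agent.helper85.BVP.one_sub_inv_pos hlp
      have h4 := Real.add_one_le_exp (2 * (1 / (l : ℝ) ^ 2))
      have h5 : (1 / (l : ℝ)) ^ 2 = 1 / (l : ℝ) ^ 2 := by rw [div_pow, one_pow]
      have h6 : 1 / (l : ℝ) ≤ 1 / 2 := one_div_le_one_div_of_le (by norm_num) h2
      have h7 : (0 : ℝ) ≤ 1 / (l : ℝ) := by positivity
      rw [inv_eq_one_div, div_le_iff₀ h3]
      rw [← h5] at h4 ⊢
      set x := 1 / (l : ℝ) with hx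
      have h8 : (2 * x ^ 2 + 1) * ((1 + x) * (1 - x)) ≤ Real.exp (2 * x ^ 2) * ((1 + x) * (1 - x)) :=
        mul_le_mul_of_nonneg_right h4 (mul_nonneg (by linarith) h3.le)
      have hx2 : x ^ 2 ≤ 1 / 4 := by nlinarith
      have h9 : 1 ≤ (2 * x ^ 2 + 1) * ((1 + x) * (1 - x)) := by
        nlinarith [mul_nonneg (sq_nonneg x) (by linarith : (0 : ℝ) ≤ 1 - 2 * x ^ 2)]
      calc (1 : ℝ) ≤ _ := h9
        _ ≤ _ := h8
        _ = Real.exp (2 * x ^ 2) * (1 + x) * (1 - x) := by ring
  refine h1.trans ?_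
  rw [prod_mul_distrib]
  unfold ff
  refine mul_le_mul_of_nonneg_right ?_ (prod_nonneg fun l _ => zero_le_one.trans (TWS_one l))
  rw [← Real.exp_sum, ← mul_sum]
  apply Real.exp_le_exp.2
  have h2 : ∑ l ∈ n.primeFactors, 1 / (l : ℝ) ^ 2 ≤ ∑ l ∈ Nat.primesLE n, 1 / (l : ℝ) ^ 2 := by
    refine sum_le_sum_of_subset_of_nonneg ?_ (fun _ _ _ => by positivity)
    intro l hl
    rw [Nat.mem_primesLE]
    exact ⟨Nat.le_of_mem_primeFactors hl, Nat.prime_of_mem_primeFactors hl⟩
  have h3 := Pool.Agent.helper85.BVP.sum_inv_sq_primes n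
  linarith

private theorem TWS_prod (z d : ℕ) (hz : 1 ≤ z) (hd : d ≠ 0) (w : ℕ → ℕ)
    (hw1 : ∀ l, l.Prime → l ∣ d → w l = 1) (hw2 : ∀ l, l.Prime → ¬ l ∣ d → w l = 2)
    (hwl : ∀ l, l.Prime → w l < l) :
    ∏ l ∈ Nat.primesLE z, (1 - (w l : ℝ) / l) ≤ Pool.Agent.helper85.BVP.h d / Real.log (z + 1) ^ 2 := by
  have hlog : 0 < Real.log (z + 1) := Real.log_pos (by
    have : (1 : ℝ) ≤ z := by exact_mod_cast hz
    linarith)
  have h1 : ∀ l ∈ Nat.primesLE z, (1 - (w l : ℝ) / l)
      ≤ (1 - 1 / (l : ℝ)) ^ 2 * (if l ∣ d then (1 - 1 / (l : ℝ))⁻¹ else 1) := by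
    intro l hl
    have hlp := (Nat.mem_primesLE.mp hl).2
    have hl0 : (0 : ℝ) < l := by exact_mod_cast hlp.pos
    have h3 := Pool.Agent.helper85.BVP.one_sub_inv_pos hlp
    split_ifs with hd
    · rw [hw1 l hlp hd, sq, mul_assoc, mul_inv_cancel₀ h3.ne', mul_one, Nat.cast_one]
    · rw [hw2 l hlp hd, mul_one]
      have : (0 : ℝ) ≤ (1 / (l : ℝ)) ^ 2 := sq_nonneg _
      push_cast
      have e : (1 - 1 / (l : ℝ)) ^ 2 = 1 - 2 / l + (1 / (l : ℝ)) ^ 2 := by ring
      rw [e]
      linarith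
  have h0 : ∀ l ∈ Nat.primesLE z, 0 ≤ (1 - (w l : ℝ) / l) := by
    intro l hl
    have hlp := (Nat.mem_primesLE.mp hl).2
    have hl0 : (0 : ℝ) < l := by exact_mod_cast hlp.pos
    rw [sub_nonneg, div_le_one hl0]
    exact_mod_cast (hwl l hlp).le
  refine (prod_le_prod h0 h1).trans ?_
  rw [prod_mul_distrib, prod_pow]
  have h2 := Pool.Agent.Lib.PrimeSums.prod_one_sub_le z hz
  have h20 : 0 ≤ ∏ l ∈ Nat.primesLE z, (1 - 1 / (l : ℝ)) :=
    prod_nonneg fun l hl => (Pool.Agent.helper85.BVP.one_sub_inv_pos (Nat.mem_primesLE.mp hl).2).le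
  have h2' := pow_le_pow_left₀ h20 h2 2
  have h3 : ∏ l ∈ Nat.primesLE z, (if l ∣ d then (1 - 1 / (l : ℝ))⁻¹ else 1) ≤
      Pool.Agent.helper85.BVP.h d := by
    rw [← prod_filter, Pool.Agent.helper85.BVP.h]
    refine Finset.prod_le_prod_of_subset_of_one_le ?_ ?_ ?_
    · intro l hl
      rw [mem_filter, Nat.mem_primesLE] at hl
      exact Nat.mem_primeFactors.mpr ⟨hl.1.2, hl.2, hd⟩
    · intro l hl
      rw [mem_filter, Nat.mem_primesLE] at hl
      exact zero_le_one.trans (Pool.Agent.helper85.BVP.one_le_inv hl.1.2)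
    · intro l hl _
      exact Pool.Agent.helper85.BVP.one_le_inv (Nat.prime_of_mem_primeFactors hl)
  have h4 : 0 ≤ ∏ l ∈ Nat.primesLE z, (if l ∣ d then (1 - 1 / (l : ℝ))⁻¹ else 1) := by
    refine prod_nonneg fun l hl => ?_
    split_ifs
    · exact zero_le_one.trans (Pool.Agent.helper85.BVP.one_le_inv (Nat.mem_primesLE.mp hl).2)
    · exact zero_le_one
  calc _ ≤ (1 / Real.log (z + 1)) ^ 2 * Pool.Agent.helper85.BVP.h d := mul_le_mul h2' h3 h4 (by positivity)
    _ = _ := by
      rw [div_pow, one_pow]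
      ring

theorem TWS : TWS_stmt := by
  classical
  obtain ⟨B, hB⟩ := interval_sieve 2
  refine ⟨32 * Real.exp 2 * (B + 1) ^ 2 + 80, by positivity, ?_⟩
  intro y H a hH ha
  have hH1 : 1 < H := by omega
  have hHr : (0 : ℝ) < H := by exact_mod_cast (by omega : 0 < H)
  have hH1r : (1 : ℝ) ≤ H := by exact_mod_cast (by omega : 1 ≤ H)
  have hlogH : 0 < Real.log H := Real.log_pos (by exact_mod_cast hH1)
  have hff := TWS_one_le a.natAbs
  have he2 : (1 : ℝ) ≤ Real.exp 2 := Real.one_le_exp (by norm_num)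
  have hB0 : (0 : ℝ) ≤ B := Nat.cast_nonneg B
  set S := (Ioc y (y + H)).filter fun n : ℕ => n.Prime ∧ ((n : ℤ) - a).natAbs.Prime with hS
  have hsl := Pool.Agent.helper85.BVP.sqrt_mul_log_sq_le H (by omega)
  have hs1 : 1 ≤ √(H : ℝ) := Real.one_le_sqrt.2 hH1r
  have hunit : (1 : ℝ) ≤ 16 * (H / Real.log H ^ 2) := by
    rw [← mul_div_assoc, le_div_iff₀ (by positivity)]
    nlinarith [sq_nonneg (Real.log H)]
  have hsqrt : √(H : ℝ) ≤ 16 * (H / Real.log H ^ 2) := by
    rw [← mul_div_assoc, le_div_iff₀ (by positivity)]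
    exact hsl
  have hq0 : (0 : ℝ) ≤ H / Real.log H ^ 2 := by positivity
  -- it is enough to bound by multiples of `H / log² H`
  have hgoal : ∀ t : ℝ, (#S : ℝ) ≤ t * (H / Real.log H ^ 2) * ff a.natAbs →
      t ≤ 32 * Real.exp 2 * (B + 1) ^ 2 + 80 →
      (#S : ℝ) ≤ (32 * Real.exp 2 * (B + 1) ^ 2 + 80) * H / Real.log H ^ 2 * ff a.natAbs := by
    intro t h1 h2
    refine h1.trans ?_
    rw [mul_div_assoc]
    gcongr
  by_cases hodd : (2 : ℤ) ∣ a
  swap
  · -- `a` odd
    have hsub : S ⊆ {2, (a + 2).toNat, (a - 2).toNat} := by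
      intro n hn
      rw [hS, mem_filter] at hn
      obtain ⟨_, hn1, hn2⟩ := hn
      simp only [mem_insert, mem_singleton]
      rcases hn1.eq_two_or_odd' with h | h
      · left
        exact h
      · right
        have h3 : (2 : ℤ) ∣ (n : ℤ) - a := by
          obtain ⟨k, hk⟩ := h
          have : a % 2 = 1 := by omega
          omega
        have h4 : 2 ∣ ((n : ℤ) - a).natAbs := by
          have := Int.natAbs_dvd_natAbs.2 h3
          exact this
        have h5 := (Nat.prime_dvd_prime_iff_eq Nat.prime_two hn2).1 h4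
        omega
    have hcard : #S ≤ 3 := (card_le_card hsub).trans card_le_three
    have hcR : (#S : ℝ) ≤ 3 := by exact_mod_cast hcard
    refine hgoal 48 ?_ ?_
    · nlinarith [mul_nonneg hq0 (sub_nonneg.2 hff)]
    · have : (0 : ℝ) ≤ 32 * Real.exp 2 * (B + 1) ^ 2 := by positivity
      nlinarith [mul_le_mul he2 (one_le_pow₀ (by linarith : (1 : ℝ) ≤ B + 1) : (1 : ℝ) ≤ (B + 1) ^ 2)
        zero_le_one (by linarith : (0 : ℝ) ≤ Real.exp 2)]
  by_cases hbig : 4 ^ (B + 1) ≤ H
  swap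
  · -- small `H`
    have hbig' := not_le.1 hbig
    have h1 : #S ≤ H := by
      rw [hS]
      refine (card_filter_le _ _).trans ?_
      rw [Nat.card_Ioc]
      omega
    have h1' : (#S : ℝ) ≤ H := by exact_mod_cast h1
    have h2 : Real.log H ≤ 2 * (B + 1) := by
      have h3 : Real.log H ≤ Real.log ((4 : ℝ) ^ (B + 1)) :=
        Real.log_le_log hHr (by exact_mod_cast hbig'.le)
      rw [Real.log_pow] at h3
      have h4 : Real.log 4 ≤ 2 := by
        have : (4 : ℝ) = 2 ^ 2 := by norm_num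
        rw [this, Real.log_pow]
        have := Real.log_two_lt_d9
        push_cast
        linarith
      push_cast at h3
      nlinarith
    have h3 : Real.log H ^ 2 ≤ 4 * (B + 1) ^ 2 := by nlinarith
    refine hgoal (4 * (B + 1) ^ 2) ?_ ?_
    · have h5 : (H : ℝ) ≤ 4 * (B + 1) ^ 2 * (H / Real.log H ^ 2) := by
        rw [← mul_div_assoc, le_div_iff₀ (by positivity)]
        nlinarith
      have h6 : (0 : ℝ) ≤ 4 * (B + 1) ^ 2 * (H / Real.log H ^ 2) := by positivity
      nlinarith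
    · nlinarith [sq_nonneg ((B : ℝ) + 1)]
  -- the sieve
  obtain ⟨r, hr1, hr2⟩ := Pool.Agent.helper85.BVP.pick_r B H hbig
  set z := Z r with hz
  have hz2 : 2 ≤ z := two_le_Z r
  have hz1 : (1 : ℝ) ≤ z := by exact_mod_cast (by omega : 1 ≤ z)
  set d := a.natAbs with hd
  have hd0 : d ≠ 0 := Int.natAbs_ne_zero.2 ha
  set C : ℕ → Finset ℕ := fun l => if l ∣ d then {0} else {0, (a % (l : ℤ)).toNat} with hC
  have hdvd : ∀ l : ℕ, l ∣ d ↔ (l : ℤ) ∣ a := fun l => by rw [hd, Int.natCast_dvd]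
  have hres : ∀ l : ℕ, l.Prime → ((a % (l : ℤ)).toNat : ℤ) = a % (l : ℤ) := fun l hl =>
    Int.toNat_of_nonneg (Int.emod_nonneg _ (by exact_mod_cast hl.ne_zero))
  have hCc : ∀ l, #(C l) ≤ 2 := by
    intro l
    simp only [hC]
    split_ifs
    · rw [card_singleton]
      norm_num
    · exact card_le_two
  have hClt : ∀ l, l.Prime → ∀ x ∈ C l, x < l := by
    intro l hl x hx
    have h3 : (a % (l : ℤ)).toNat < l := by
      have h4 := hres l hl
      have h5 := Int.emod_lt_of_pos a (by exact_mod_cast hl.pos : (0 : ℤ) < l)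
      omega
    simp only [hC] at hx
    split_ifs at hx with h
    · rw [mem_singleton] at hx
      rw [hx]
      exact hl.pos
    · rw [mem_insert, mem_singleton] at hx
      rcases hx with rfl | rfl
      · exact hl.pos
      · exact h3
  have hw1 : ∀ l, l.Prime → l ∣ d → #(C l) = 1 := by
    intro l _ h
    simp only [hC, if_pos h, card_singleton]
  have hw2 : ∀ l, l.Prime → ¬ l ∣ d → #(C l) = 2 := by
    intro l hl h
    simp only [hC, if_neg h]
    apply card_pair
    intro he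
    apply h
    rw [hdvd, Int.dvd_iff_emod_eq_zero, ← hres l hl, ← he]
    rfl
  have hCl : ∀ l, l.Prime → #(C l) < l := by
    intro l hl
    by_cases h : l ∣ d
    · rw [hw1 l hl h]
      exact hl.one_lt
    · have h2 : l ≠ 2 := by
        rintro rfl
        exact h ((hdvd 2).2 (by exact_mod_cast hodd))
      have := hl.two_le
      rw [hw2 l hl h]
      omega
  have hs := (hB r y H C hClt hCc hCl).2
  rw [← hz] at hs
  have hprod := TWS_prod z d (by omega) hd0 (fun l => #(C l)) hw1 hw2 hCl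
  -- counting
  have hcount : #S ≤ z + (2 * z + 1) + #(sifted y H z C) := by
    set N2 := S.filter fun n : ℕ => ((n : ℤ) - a).natAbs ≤ z with hN2
    have hsub : S ⊆ (Icc 1 z ∪ N2) ∪ sifted y H z C := by
      intro n hn
      have hn' := hn
      rw [hS, mem_filter] at hn
      obtain ⟨hnI, hn1, hn2⟩ := hn
      rw [mem_union, mem_union, mem_Icc]
      by_cases h1 : n ≤ z
      · left; left
        exact ⟨hn1.pos, h1⟩
      by_cases h2 : ((n : ℤ) - a).natAbs ≤ z
      · left; right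
        rw [hN2, mem_filter]
        exact ⟨hn', h2⟩
      right
      rw [sifted, mem_filter]
      refine ⟨hnI, fun l hl hmem => ?_⟩
      obtain ⟨hlz, hlp⟩ := Nat.mem_primesLE.mp hl
      have hzero : n % l ≠ 0 := by
        intro h
        have h5 := (Nat.prime_dvd_prime_iff_eq hlp hn1).1 (Nat.dvd_of_mod_eq_zero h)
        omega
      simp only [hC] at hmem
      split_ifs at hmem with hld
      · rw [mem_singleton] at hmem
        exact hzero hmem
      · rw [mem_insert, mem_singleton] at hmem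
        rcases hmem with hmem | hmem
        · exact hzero hmem
        · have h3 : (n : ℤ) % l = a % l := by
            rw [← hres l hlp, ← hmem]
            exact (Int.natCast_mod n l).symm
          have h4 : (l : ℤ) ∣ (n : ℤ) - a := Int.ModEq.dvd (show (a : ℤ) ≡ n [ZMOD l] from h3.symm)
          have h5 : l ∣ ((n : ℤ) - a).natAbs := Int.natCast_dvd.1 h4
          have h6 := (Nat.prime_dvd_prime_iff_eq hlp hn2).1 h5
          omega
    have hN2c : #N2 ≤ 2 * z + 1 := by
      have h1 : #N2 ≤ #(Icc (a - z) (a + z)) := by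
        refine card_le_card_of_injOn (fun n : ℕ => (n : ℤ)) ?_ ?_
        · intro n hn
          rw [hN2, mem_coe, mem_filter] at hn
          have h9 := hn.2
          simp only [coe_Icc, Set.mem_Icc]
          constructor <;> omega
        · intro n _ m _ h
          exact Nat.cast_injective (R := ℤ) h
      refine h1.trans ?_
      rw [Int.card_Icc]
      omega
    refine (card_le_card hsub).trans ((card_union_le _ _).trans ?_)
    have h7 := card_union_le (Icc 1 z) N2
    have h8 : #(Icc 1 z) = z := by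
      rw [Nat.card_Icc]
      omega
    omega
  -- numerics
  have hlz : Real.log H ≤ 4 * (B + 1) * Real.log (z + 1) := by
    have h3 : Real.log z ≤ Real.log (z + 1) := Real.log_le_log (by positivity) (by linarith)
    have h4 : 4 * ((B : ℝ) + 1) * Real.log z ≤ 4 * (B + 1) * Real.log (z + 1) := by gcongr
    linarith
  have hl5 : 0 < Real.log ((z : ℝ) + 1) := Real.log_pos (by linarith)
  have hHz : (z : ℝ) ^ (2 * (B + 1)) ≤ H := by exact_mod_cast hr1
  have hzB : (z : ℝ) ^ B ≤ √H := by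
    apply Real.le_sqrt_of_sq_le
    refine le_trans ?_ hHz
    rw [← pow_mul]
    exact pow_le_pow_right₀ hz1 (by omega)
  have hzz : (z : ℝ) ≤ √H := by
    apply Real.le_sqrt_of_sq_le
    refine le_trans ?_ hHz
    exact pow_le_pow_right₀ hz1 (by omega)
  have hcR : (#S : ℝ) ≤ z + (2 * z + 1) + #(sifted y H z C) := by exact_mod_cast hcount
  have hmain : ∏ l ∈ Nat.primesLE z, (1 - ((#(C l) : ℕ) : ℝ) / l) ≤
      16 * Real.exp 2 * (B + 1) ^ 2 * ff d / Real.log H ^ 2 := by
    refine hprod.trans ?_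
    rw [div_le_div_iff₀ (by positivity) (by positivity)]
    have h6 : Real.log H ^ 2 ≤ (4 * (B + 1) * Real.log (z + 1)) ^ 2 := pow_le_pow_left₀ hlogH.le hlz 2
    calc Pool.Agent.helper85.BVP.h d * Real.log H ^ 2
        ≤ (Real.exp 2 * ff d) * (4 * (B + 1) * Real.log (z + 1)) ^ 2 :=
          mul_le_mul (TWS_h_le d) h6 (by positivity) (by positivity)
      _ = _ := by ring
  have hmain2 : 2 * (H : ℝ) * ∏ l ∈ Nat.primesLE z, (1 - ((#(C l) : ℕ) : ℝ) / l) ≤
      32 * Real.exp 2 * (B + 1) ^ 2 * (H / Real.log H ^ 2) * ff d := by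
    refine (mul_le_mul_of_nonneg_left hmain (by positivity)).trans (le_of_eq ?_)
    ring
  refine hgoal (32 * Real.exp 2 * (B + 1) ^ 2 + 80) ?_ le_rfl
  have hzr2 : (2 : ℝ) ≤ z := by exact_mod_cast hz2
  have herr : (z : ℝ) + (2 * z + 1) + z ^ B ≤ 80 * (H / Real.log H ^ 2) := by linarith
  have herr2 : 80 * ((H : ℝ) / Real.log H ^ 2) ≤ 80 * (H / Real.log H ^ 2) * ff d := by
    have : (0 : ℝ) ≤ 80 * ((H : ℝ) / Real.log H ^ 2) := by positivity
    nlinarith
  calc (#S : ℝ) ≤ z + (2 * z + 1) + #(sifted y H z C) := hcR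
    _ ≤ (32 * Real.exp 2 * (B + 1) ^ 2 * (H / Real.log H ^ 2) * ff d) + 80 * (H / Real.log H ^ 2) * ff d := by
      linarith
    _ = _ := by ring

end Pool.Agent.SCT
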